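import Pool.Agent.Helper24.TB.Final

/-!
# Tightness of the recentred maximum of branching random walk in a random environment

The model (`Pool.Agent.Helper24.TB.Defs`): independent clocks at the nodes of the genealogical
trees, exponential(1) jump clocks, branching clocks of rate `ξ x` at the site `x`, fair directions;
`law` is the quenched law (the clocks do not depend on the environment, the dynamics does),
`positions ξ u0 t` is the set of positions of the particles alive at time `t`, `maxPos` its maximum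
`M(t)`, `median` the quenched median `m(t)`, and `Tight ξ u0` says that
`sup_{t ≥ 0} law (|M(t) - m(t)| > K)` tends to `0` as `K` tends to infinity.
-/

open MeasureTheory Filter Topology Pool.Agent.Helper24.TB

namespace Pool.Agent.Results.MP_02df95_pr.Tightness

universe u

/-- Positive answer, for every random environment with values in `[a, b]`, `0 < a`; the bound is
uniform in the environment, the initial configuration and the time. -/
theorem result :
    -- the question: almost sure quenched tightness in a random environment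
    (∀ (Ω' : Type u) [MeasurableSpace Ω'] (P : Measure Ω') (ξ : ℤ → Ω' → ℝ) (a b : ℝ),
      0 < a → (∀ x, ∀ᵐ ω ∂P, a ≤ ξ x ω ∧ ξ x ω ≤ b) →
      ∀ (u0 : ℤ → ℕ) (C : ℕ), 1 ≤ u0 0 → (∀ x, x ≤ 0 → u0 x ≤ C) → (∀ x, 0 < x → u0 x = 0) →
      ∀ᵐ ω ∂P, Tight (fun x => ξ x ω) u0) ∧
    -- uniform version
    (∀ (a b : ℝ) (C : ℕ) (ε : ℝ), 0 < a → 0 < ε → ∃ K : ℕ,
      ∀ ξ : ℤ → ℝ, (∀ x, a ≤ ξ x ∧ ξ x ≤ b) →
      ∀ u0 : ℤ → ℕ, 1 ≤ u0 0 → (∀ x, x ≤ 0 → u0 x ≤ C) → (∀ x, 0 < x → u0 x = 0) →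
      ∀ t : ℝ, 0 ≤ t →
        law {ω | (K : ℤ) < |maxPos ξ u0 t ω - median ξ u0 t|} ≤ ENNReal.ofReal ε) ∧
    -- the maximum and the median are attained
    (∀ (a b : ℝ) (C : ℕ) (ξ : ℤ → ℝ) (u0 : ℤ → ℕ) (t : ℝ), 0 < a →
      (∀ x, a ≤ ξ x ∧ ξ x ≤ b) → 1 ≤ u0 0 → (∀ x, x ≤ 0 → u0 x ≤ C) →
      (∀ x, 0 < x → u0 x = 0) → 0 ≤ t →
      (∀ᵐ ω ∂law, IsGreatest (positions ξ u0 t ω) (maxPos ξ u0 t ω)) ∧
        IsGreatest {x : ℤ | 1 / 2 ≤ law {ω | x ≤ maxPos ξ u0 t ω}} (median ξ u0 t)) := by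
  have hC' : ∀ (u0 : ℤ → ℕ) (C : ℕ), (∀ x, x ≤ 0 → u0 x ≤ C) → (∀ x, 0 < x → u0 x = 0) →
      ∀ x, u0 x ≤ C := by
    intro u0 C h1 h2 x
    rcases le_or_gt x 0 with h | h
    · exact h1 x h
    · rw [h2 x h]; exact Nat.zero_le _
  refine ⟨?_, ?_, ?_⟩
  · intro Ω' _ P ξ a b ha hξ u0 C h0 hC hneg
    filter_upwards [ae_all_iff.2 hξ] with ω hω
    exact tight ha hω h0 (hC' u0 C hC hneg) hneg
  · intro a b C ε ha hε
    obtain ⟨K, hK⟩ := uniform a b ha C hε
    exact ⟨K, fun ξ h u0 h0 hC hneg t ht => hK ξ h u0 h0 (hC' u0 C hC hneg) hneg t ht⟩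
  · intro a b C ξ u0 t ha h h0 hC hneg ht
    refine ⟨?_, (median_spec ha h (hC' u0 C hC hneg) h0 hneg ht).1⟩
    filter_upwards [ae_good ha h (hC' u0 C hC hneg) h0 hneg ht] with ω hω
    exact ⟨Int.csSup_mem hω.1 hω.2, fun y hy => le_csSup hω.2 hy⟩

end Pool.Agent.Results.MP_02df95_pr.Tightness
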